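import Mathlib
import Pool.Agent.Q48.Artin.Sq

/-!
The Artin cones of level one are not convex, for `n ≥ 6` variables and degree `2 d ≥ 6`.
-/

namespace Pool.Agent.Results.MP_9eb66c_ag.NotConvex

open Polynomial Q48.Artin

/-- Finite sums of squares of real polynomials. -/
def IsSOS {n : ℕ} (f : MvPolynomial (Fin n) ℝ) : Prop :=
  ∃ (N : ℕ) (h : Fin N → MvPolynomial (Fin n) ℝ), f = ∑ i, h i ^ 2

/-- The Artin cone of level `r`: the forms `p` of degree `2 d` in `n` variables such that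
`p * q` is a sum of squares for some nonzero form `q` of degree `2 r` which is a sum of
squares. -/
def ArtinCone (n d r : ℕ) : Set (MvPolynomial (Fin n) ℝ) :=
  {p | p.IsHomogeneous (2 * d) ∧
    ∃ q : MvPolynomial (Fin n) ℝ, q ≠ 0 ∧ q.IsHomogeneous (2 * r) ∧ IsSOS q ∧ IsSOS (p * q)}

section substitution

variable {n : ℕ} {R : Type*} [CommRing R] [Algebra ℝ R]

/-- the images of the variables under the substitution `x ↦ ξ + a T` -/
noncomputable def fs (ξ : Fin n → R) (a : Fin n → ℝ) (s : Fin n) : R[X] :=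
  C (ξ s) + C (algebraMap ℝ R (a s)) * X

theorem fs_deg (ξ : Fin n → R) (a : Fin n → ℝ) (s : Fin n) : (fs ξ a s).natDegree ≤ 1 := by
  unfold fs
  refine (natDegree_add_le _ _).trans (max_le (by simp) ?_)
  exact (natDegree_C_mul_le _ _).trans natDegree_X_le

theorem fs_coeff (ξ : Fin n → R) (a : Fin n → ℝ) (s : Fin n) :
    (fs ξ a s).coeff 1 = algebraMap ℝ R (a s) := by
  simp [fs, coeff_C]

theorem prod_top (ξ : Fin n → R) (a : Fin n → ℝ) (m : Fin n → ℕ) (S : Finset (Fin n)) :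
    (∏ s ∈ S, fs ξ a s ^ m s).natDegree ≤ ∑ s ∈ S, m s ∧
    (∏ s ∈ S, fs ξ a s ^ m s).coeff (∑ s ∈ S, m s) = ∏ s ∈ S, algebraMap ℝ R (a s) ^ m s := by
  classical
  induction S using Finset.induction_on with
  | empty => simp
  | insert i S hi ih =>
    rw [Finset.prod_insert hi, Finset.sum_insert hi, Finset.prod_insert hi]
    have h1 : (fs ξ a i ^ m i).natDegree ≤ m i := by
      refine natDegree_pow_le.trans ?_
      simpa using Nat.mul_le_mul_left (m i) (fs_deg ξ a i)
    refine ⟨natDegree_mul_le.trans (add_le_add h1 ih.1), ?_⟩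
    rw [coeff_mul_add_eq_of_natDegree_le h1 ih.1, ih.2]
    have h2 := coeff_pow_of_natDegree_le (m := m i) (fs_deg ξ a i)
    rw [mul_one, fs_coeff] at h2
    rw [h2]

theorem top_coeff {p : MvPolynomial (Fin n) ℝ} {D : ℕ} (hp : p.IsHomogeneous D)
    (ξ : Fin n → R) (a : Fin n → ℝ) :
    (MvPolynomial.aeval (fs ξ a) p).natDegree ≤ D ∧
    (MvPolynomial.aeval (fs ξ a) p).coeff D = algebraMap ℝ R (MvPolynomial.eval a p) := by
  rw [MvPolynomial.aeval_def, MvPolynomial.eval₂_eq', MvPolynomial.eval_eq']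
  have hsum : ∀ m ∈ p.support, ∑ s, m s = D := fun m hm => by
    have := hp (MvPolynomial.mem_support_iff.mp hm)
    rw [← this, ← Finsupp.degree_eq_sum, Finsupp.degree_eq_weight_one]
    rfl
  constructor
  · refine natDegree_sum_le_of_forall_le _ _ fun m hm => ?_
    have h1 := (prod_top ξ a m Finset.univ).1
    rw [hsum m hm] at h1
    rw [IsScalarTower.algebraMap_apply ℝ R R[X], algebraMap_eq]
    exact (natDegree_C_mul_le _ _).trans h1
  · rw [finsetSum_coeff, map_sum]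
    refine Finset.sum_congr rfl fun m hm => ?_
    have h1 := (prod_top ξ a m Finset.univ).2
    rw [hsum m hm] at h1
    rw [IsScalarTower.algebraMap_apply ℝ R R[X], algebraMap_eq, coeff_C_mul, h1, map_mul,
      map_prod]
    simp only [map_pow]

end substitution

/-- a nonnegative quadratic form is constant along the directions where it vanishes -/
theorem const_dir {n : ℕ} {q : MvPolynomial (Fin n) ℝ} (hq : q.IsHomogeneous 2)
    (hpos : ∀ x, 0 ≤ MvPolynomial.eval x q) {a : Fin n → ℝ} (ha : MvPolynomial.eval a q = 0)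
    (b : Fin n → ℝ) (t : ℝ) :
    MvPolynomial.eval (b + t • a) q = MvPolynomial.eval b q := by
  set φ : ℝ[X] := MvPolynomial.aeval (fs b a) q with hφ
  have hev : ∀ s : ℝ, φ.eval s = MvPolynomial.eval (b + s • a) q := by
    intro s
    have h := MvPolynomial.comp_aeval_apply (f := fs b a) (Polynomial.aeval (R := ℝ) s) q
    rw [hφ, ← Polynomial.coe_aeval_eq_eval, h, MvPolynomial.aeval_eq_eval]
    congr 2
    funext i
    simp [fs]
    exact mul_comm _ _
  obtain ⟨h1, h2⟩ := top_coeff hq b a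
  rw [ha, map_zero] at h2
  have h3 : φ.natDegree ≤ 1 := by
    rw [natDegree_le_iff_coeff_eq_zero]
    intro N hN
    rcases Nat.lt_or_ge 2 N with h4 | h4
    · exact coeff_eq_zero_of_natDegree_lt (h1.trans_lt h4)
    · have : N = 2 := by omega
      rw [this]
      exact h2
  obtain ⟨u, v, huv⟩ := exists_eq_X_add_C_of_natDegree_le_one h3
  have h5 : ∀ s : ℝ, 0 ≤ u * s + v := by
    intro s
    have := hpos (b + s • a)
    rw [← hev, huv] at this
    simpa using this
  have hu : u = 0 := by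
    by_contra hu
    have h6 := h5 (-(v + 1) / u)
    rw [mul_div_cancel₀ _ hu] at h6
    linarith
  have h7 := hev t
  have h8 := hev 0
  rw [zero_smul, add_zero] at h8
  rw [← h7, ← h8, huv, hu]
  simp

theorem IsSOS.nonneg {n : ℕ} {f : MvPolynomial (Fin n) ℝ} (hf : IsSOS f) (x : Fin n → ℝ) :
    0 ≤ MvPolynomial.eval x f := by
  obtain ⟨N, h, rfl⟩ := hf
  rw [map_sum]
  exact Finset.sum_nonneg fun i _ => by rw [map_pow]; exact sq_nonneg _

/-- directions in which a multiplier has to vanish -/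
theorem dir {n : ℕ} {q P : MvPolynomial (Fin n) ℝ} (hq : q.IsHomogeneous 2) (hqs : IsSOS q)
    (hPq : IsSOS (P * q)) {ξ : Fin n → ℝ[X][X]} {a : Fin n → ℝ} {c : ℝ} (hc : 0 < c) {k : ℕ}
    (hP : MvPolynomial.aeval (fs ξ a) P = C (C (C c) * (X ^ (2 * k) * mot))) :
    MvPolynomial.eval a q = 0 := by
  by_contra h0
  have hpos : 0 < MvPolynomial.eval a q := lt_of_le_of_ne (hqs.nonneg a) (Ne.symm h0)
  obtain ⟨N, h, hh⟩ := hPq
  have h1 := congrArg (MvPolynomial.aeval (fs ξ a)) hh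
  rw [map_mul, hP, map_sum] at h1
  simp only [map_pow] at h1
  obtain ⟨h2, h3⟩ := top_coeff hq ξ a
  have hFR : FR ℝ[X][X] := FR_poly (FR_poly FR_real)
  have h4 : ∀ i, (MvPolynomial.aeval (fs ξ a) (h i)).natDegree ≤ 1 := by
    refine natDegree_le_of_sum_sq hFR fun m hm => ?_
    rw [← h1, coeff_C_mul, coeff_eq_zero_of_natDegree_lt (h2.trans_lt (by omega)), mul_zero]
  have h5 := coeff_sum_sq h4
  rw [← h1, coeff_C_mul, mul_one, h3] at h5
  refine mot_pow_not_sos (mul_pos hc hpos) k _ (Eq.trans ?_ h5)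
  have : algebraMap ℝ ℝ[X][X] (MvPolynomial.eval a q) = C (C (MvPolynomial.eval a q)) := rfl
  rw [this, C_mul, C_mul]
  ring

section forms

variable {n : ℕ}

/-- a Motzkin form, times an even power of the first variable -/
noncomputable def M3 (i j l : Fin n) (k : ℕ) : MvPolynomial (Fin n) ℝ :=
  MvPolynomial.X i ^ (2 * k) * (MvPolynomial.X i ^ 4 * MvPolynomial.X j ^ 2
    + MvPolynomial.X i ^ 2 * MvPolynomial.X j ^ 4 + MvPolynomial.X l ^ 6
    - MvPolynomial.C 3 * (MvPolynomial.X i ^ 2 * MvPolynomial.X j ^ 2 * MvPolynomial.X l ^ 2))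

theorem M3_homog (i j l : Fin n) (k : ℕ) : (M3 i j l k).IsHomogeneous (2 * (k + 3)) := by
  have hX : ∀ (s : Fin n) (e : ℕ),
      (MvPolynomial.X s ^ e : MvPolynomial (Fin n) ℝ).IsHomogeneous e := fun s e => by
    simpa using (MvPolynomial.isHomogeneous_X ℝ s).pow e
  have h1 : 2 * (k + 3) = 2 * k + 6 := by ring
  rw [h1]
  refine (hX i (2 * k)).mul ?_
  refine MvPolynomial.IsHomogeneous.sub (MvPolynomial.IsHomogeneous.add
    (MvPolynomial.IsHomogeneous.add ((hX i 4).mul (hX j 2)) ((hX i 2).mul (hX j 4))) (hX l 6)) ?_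
  exact MvPolynomial.IsHomogeneous.C_mul (((hX i 2).mul (hX j 2)).mul (hX l 2)) 3

theorem isSOS_two (u v : MvPolynomial (Fin n) ℝ) : IsSOS (u ^ 2 + v ^ 2) :=
  ⟨2, ![u, v], by simp [Fin.sum_univ_two]⟩

theorem isSOS_three (u v w : MvPolynomial (Fin n) ℝ) : IsSOS (u ^ 2 + v ^ 2 + w ^ 2) :=
  ⟨3, ![u, v, w], by simp [Fin.sum_univ_three]⟩

theorem M3_mem (i j l : Fin n) (hil : i ≠ l) (k : ℕ) : M3 i j l k ∈ ArtinCone n (k + 3) 1 := by
  refine ⟨M3_homog i j l k, MvPolynomial.X i ^ 2 + MvPolynomial.X l ^ 2, ?_, ?_, isSOS_two _ _,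
    ?_⟩
  · intro h
    have := congrArg (MvPolynomial.eval (fun s => if s = i then (1 : ℝ) else 0)) h
    simp [hil.symm] at this
  · have hX : ∀ (s : Fin n) (e : ℕ),
        (MvPolynomial.X s ^ e : MvPolynomial (Fin n) ℝ).IsHomogeneous e := fun s e => by
      simpa using (MvPolynomial.isHomogeneous_X ℝ s).pow e
    exact (hX i 2).add (hX l 2)
  · have e : M3 i j l k * (MvPolynomial.X i ^ 2 + MvPolynomial.X l ^ 2)
        = (MvPolynomial.X i ^ k * (MvPolynomial.X l ^ 4
            - MvPolynomial.X i ^ 2 * MvPolynomial.X j ^ 2)) ^ 2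
          + (MvPolynomial.X i ^ k * (MvPolynomial.X i * MvPolynomial.X l ^ 3
            - MvPolynomial.X i * MvPolynomial.X j ^ 2 * MvPolynomial.X l)) ^ 2
          + (MvPolynomial.X i ^ k * (MvPolynomial.X i ^ 3 * MvPolynomial.X j
            - MvPolynomial.X i * MvPolynomial.X j * MvPolynomial.X l ^ 2)) ^ 2 := by
      unfold M3
      have h3 : (MvPolynomial.C 3 : MvPolynomial (Fin n) ℝ) = 3 := rfl
      rw [h3]
      ring
    rw [e]
    exact isSOS_three _ _ _

theorem aeval_M3 {A : Type*} [CommRing A] [Algebra ℝ A] (f : Fin n → A) (i j l : Fin n) (k : ℕ) :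
    MvPolynomial.aeval f (M3 i j l k) = f i ^ (2 * k) * (f i ^ 4 * f j ^ 2
      + f i ^ 2 * f j ^ 4 + f l ^ 6 - 3 * (f i ^ 2 * f j ^ 2 * f l ^ 2)) := by
  unfold M3
  simp only [map_mul, map_add, map_sub, map_pow, MvPolynomial.aeval_X, MvPolynomial.aeval_C]
  have : algebraMap ℝ A 3 = 3 := map_ofNat _ 3
  rw [this]

/-- the base point `(X, Y, 1)` placed at the coordinates `i, j, l` -/
noncomputable def base (i j l : Fin n) : Fin n → ℝ[X][X] := fun s =>
  if s = i then X else if s = j then C X else if s = l then 1 else 0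

/-- the key vanishing statement -/
theorem vanish {i j l i' j' l' : Fin n} (hij : i ≠ j) (hil : i ≠ l) (hjl : j ≠ l)
    (hi' : i' ≠ i ∧ i' ≠ j ∧ i' ≠ l) (hj' : j' ≠ i ∧ j' ≠ j ∧ j' ≠ l)
    (hl' : l' ≠ i ∧ l' ≠ j ∧ l' ≠ l) {k : ℕ} {c : ℝ} (hc : 0 < c)
    {q : MvPolynomial (Fin n) ℝ} (hq : q.IsHomogeneous 2) (hqs : IsSOS q)
    (hPq : IsSOS (MvPolynomial.C c * (M3 i j l k + M3 i' j' l' k) * q)) {a : Fin n → ℝ}
    (hai : a i = 0) (haj : a j = 0) (hal : a l = 0)
    (ha : a i' ^ (2 * k) * (a i' ^ 4 * a j' ^ 2 + a i' ^ 2 * a j' ^ 4 + a l' ^ 6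
      - 3 * (a i' ^ 2 * a j' ^ 2 * a l' ^ 2)) = 0) :
    MvPolynomial.eval a q = 0 := by
  refine dir hq hqs hPq (ξ := base i j l) hc (k := k) ?_
  have b1 : base i j l i = X := by simp [base]
  have b2 : base i j l j = C X := by simp [base, hij.symm]
  have b3 : base i j l l = 1 := by simp [base, hil.symm, hjl.symm]
  have b4 : base i j l i' = 0 := by simp [base, hi'.1, hi'.2.1, hi'.2.2]
  have b5 : base i j l j' = 0 := by simp [base, hj'.1, hj'.2.1, hj'.2.2]
  have b6 : base i j l l' = 0 := by simp [base, hl'.1, hl'.2.1, hl'.2.2]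
  rw [map_mul, map_add, aeval_M3, aeval_M3, MvPolynomial.aeval_C]
  have f1 : fs (base i j l) a i = C X := by simp [fs, b1, hai]
  have f2 : fs (base i j l) a j = C (C X) := by simp [fs, b2, haj]
  have f3 : fs (base i j l) a l = 1 := by simp [fs, b3, hal]
  have f4 : fs (base i j l) a i' = C (C (C (a i'))) * X := by
    simp [fs, b4]
  have f5 : fs (base i j l) a j' = C (C (C (a j'))) * X := by
    simp [fs, b5]
  have f6 : fs (base i j l) a l' = C (C (C (a l'))) * X := by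
    simp [fs, b6]
  rw [f1, f2, f3, f4, f5, f6]
  have e1 : (C (C (C (a i'))) * X : ℝ[X][X][X]) ^ (2 * k)
      * ((C (C (C (a i'))) * X) ^ 4 * (C (C (C (a j'))) * X) ^ 2
      + (C (C (C (a i'))) * X) ^ 2 * (C (C (C (a j'))) * X) ^ 4 + (C (C (C (a l'))) * X) ^ 6
      - 3 * ((C (C (C (a i'))) * X) ^ 2 * (C (C (C (a j'))) * X) ^ 2
        * (C (C (C (a l'))) * X) ^ 2)) = 0 := by
    have h3 : (3 : ℝ[X][X][X]) = C (C (C 3)) := rfl
    have : (C (C (C (a i'))) * X : ℝ[X][X][X]) ^ (2 * k)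
      * ((C (C (C (a i'))) * X) ^ 4 * (C (C (C (a j'))) * X) ^ 2
      + (C (C (C (a i'))) * X) ^ 2 * (C (C (C (a j'))) * X) ^ 4 + (C (C (C (a l'))) * X) ^ 6
      - 3 * ((C (C (C (a i'))) * X) ^ 2 * (C (C (C (a j'))) * X) ^ 2
        * (C (C (C (a l'))) * X) ^ 2))
      = C (C (C (a i' ^ (2 * k) * (a i' ^ 4 * a j' ^ 2 + a i' ^ 2 * a j' ^ 4 + a l' ^ 6
      - 3 * (a i' ^ 2 * a j' ^ 2 * a l' ^ 2))))) * X ^ (2 * k + 6) := by
      rw [h3]
      simp only [C_mul, C_add, C_sub, C_pow]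
      ring
    rw [this, ha]
    simp
  rw [e1, add_zero]
  have e2 : algebraMap ℝ ℝ[X][X][X] c = C (C (C c)) := rfl
  rw [e2]
  unfold mot
  have h3 : (3 : ℝ[X][X][X]) = C 3 := rfl
  rw [h3]
  simp only [C_mul, C_add, C_sub, C_pow, C_1]
  ring

end forms

/-- the multiplier has to vanish identically -/
theorem no_multiplier (m k : ℕ) {c : ℝ} (hc : 0 < c) (q : MvPolynomial (Fin (m + 6)) ℝ)
    (hq : q.IsHomogeneous 2) (hqs : IsSOS q)
    (hPq : IsSOS (MvPolynomial.C c * (M3 (⟨0, by omega⟩ : Fin (m + 6)) ⟨1, by omega⟩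
      ⟨2, by omega⟩ k + M3 (⟨3, by omega⟩ : Fin (m + 6)) ⟨4, by omega⟩ ⟨5, by omega⟩ k) * q)) :
    q = 0 := by
  set i0 : Fin (m + 6) := ⟨0, by omega⟩ with h0
  set i1 : Fin (m + 6) := ⟨1, by omega⟩ with h1
  set i2 : Fin (m + 6) := ⟨2, by omega⟩ with h2
  set i3 : Fin (m + 6) := ⟨3, by omega⟩ with h3
  set i4 : Fin (m + 6) := ⟨4, by omega⟩ with h4
  set i5 : Fin (m + 6) := ⟨5, by omega⟩ with h5
  have ne : ∀ {u v : ℕ} (hu : u < m + 6) (hv : v < m + 6), u ≠ v →
      (⟨u, hu⟩ : Fin (m + 6)) ≠ ⟨v, hv⟩ := fun hu hv h h' => h (congrArg Fin.val h')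
  have hpos := hqs.nonneg
  -- the kernel is a submodule
  let K : Submodule ℝ (Fin (m + 6) → ℝ) :=
    { carrier := {a | MvPolynomial.eval a q = 0}
      zero_mem' := by
        show MvPolynomial.eval 0 q = 0
        have := const_dir hq hpos (a := 0) (b := 0)
        have h7 := top_coeff (R := ℝ) hq 0 0
        have h8 : (MvPolynomial.aeval (fs (R := ℝ) (0 : Fin (m + 6) → ℝ) 0) q) = 0 := by
          have h9 : fs (R := ℝ) (0 : Fin (m + 6) → ℝ) 0 = 0 := by
            funext s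
            simp [fs]
          rw [h9, MvPolynomial.aeval_zero]
          have h10 : MvPolynomial.constantCoeff q = 0 := by
            rw [MvPolynomial.constantCoeff_eq]
            exact hq.coeff_eq_zero (by simp)
          rw [h10, map_zero]
        rw [h8, coeff_zero] at h7
        exact h7.2.symm
      add_mem' := by
        intro a b ha hb
        have := const_dir hq hpos hb a 1
        rw [one_smul] at this
        exact this.trans ha
      smul_mem' := by
        intro t a ha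
        show MvPolynomial.eval (t • a) q = 0
        have h7 := const_dir hq hpos ha (t • a) (-t)
        have h8 := const_dir hq hpos ha a (-1)
        have h9 := const_dir hq hpos ha (a + (-1 : ℝ) • a) t
        have e1 : a + (-1 : ℝ) • a = 0 := by
          rw [neg_one_smul, add_neg_cancel]
        rw [e1, zero_add] at h9
        rw [e1] at h8
        rw [h9, h8]
        exact ha }
  have single_ne : ∀ {u v : Fin (m + 6)}, u ≠ v → (Pi.single u (1 : ℝ) : Fin (m + 6) → ℝ) v = 0 :=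
    fun h => Pi.single_eq_of_ne h.symm 1
  have single_eq : ∀ u : Fin (m + 6), (Pi.single u (1 : ℝ) : Fin (m + 6) → ℝ) u = 1 :=
    fun u => Pi.single_eq_same u 1
  -- directions along the second block and the remaining directions
  have hA : ∀ a : Fin (m + 6) → ℝ, a i0 = 0 → a i1 = 0 → a i2 = 0 →
      (a i3 ^ (2 * k) * (a i3 ^ 4 * a i4 ^ 2 + a i3 ^ 2 * a i4 ^ 4 + a i5 ^ 6
      - 3 * (a i3 ^ 2 * a i4 ^ 2 * a i5 ^ 2)) = 0) → a ∈ K := by
    intro a g0 g1 g2 g
    exact vanish (ne _ _ (by norm_num)) (ne _ _ (by norm_num)) (ne _ _ (by norm_num))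
      ⟨ne _ _ (by norm_num), ne _ _ (by norm_num), ne _ _ (by norm_num)⟩
      ⟨ne _ _ (by norm_num), ne _ _ (by norm_num), ne _ _ (by norm_num)⟩
      ⟨ne _ _ (by norm_num), ne _ _ (by norm_num), ne _ _ (by norm_num)⟩ hc hq hqs hPq g0 g1 g2 g
  have hB : ∀ a : Fin (m + 6) → ℝ, a i3 = 0 → a i4 = 0 → a i5 = 0 →
      (a i0 ^ (2 * k) * (a i0 ^ 4 * a i1 ^ 2 + a i0 ^ 2 * a i1 ^ 4 + a i2 ^ 6
      - 3 * (a i0 ^ 2 * a i1 ^ 2 * a i2 ^ 2)) = 0) → a ∈ K := by
    intro a g0 g1 g2 g
    have hPq' : IsSOS (MvPolynomial.C c * (M3 i3 i4 i5 k + M3 i0 i1 i2 k) * q) := by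
      rw [add_comm (M3 i3 i4 i5 k)]
      exact hPq
    exact vanish (ne _ _ (by norm_num)) (ne _ _ (by norm_num)) (ne _ _ (by norm_num))
      ⟨ne _ _ (by norm_num), ne _ _ (by norm_num), ne _ _ (by norm_num)⟩
      ⟨ne _ _ (by norm_num), ne _ _ (by norm_num), ne _ _ (by norm_num)⟩
      ⟨ne _ _ (by norm_num), ne _ _ (by norm_num), ne _ _ (by norm_num)⟩ hc hq hqs hPq' g0 g1 g2 g
  have n01 : i0 ≠ i1 := ne _ _ (by norm_num)
  have n02 : i0 ≠ i2 := ne _ _ (by norm_num)
  have n03 : i0 ≠ i3 := ne _ _ (by norm_num)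
  have n04 : i0 ≠ i4 := ne _ _ (by norm_num)
  have n05 : i0 ≠ i5 := ne _ _ (by norm_num)
  have n12 : i1 ≠ i2 := ne _ _ (by norm_num)
  have n13 : i1 ≠ i3 := ne _ _ (by norm_num)
  have n14 : i1 ≠ i4 := ne _ _ (by norm_num)
  have n15 : i1 ≠ i5 := ne _ _ (by norm_num)
  have n23 : i2 ≠ i3 := ne _ _ (by norm_num)
  have n24 : i2 ≠ i4 := ne _ _ (by norm_num)
  have n25 : i2 ≠ i5 := ne _ _ (by norm_num)
  have n34 : i3 ≠ i4 := ne _ _ (by norm_num)
  have n35 : i3 ≠ i5 := ne _ _ (by norm_num)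
  have n45 : i4 ≠ i5 := ne _ _ (by norm_num)
  have k0 : Pi.single i0 (1 : ℝ) ∈ K := hB _ (single_ne n03) (single_ne n04) (single_ne n05) (by
    rw [single_eq, single_ne n01, single_ne n02]; simp)
  have k1 : Pi.single i1 (1 : ℝ) ∈ K := hB _ (single_ne n13) (single_ne n14) (single_ne n15) (by
    rw [single_eq, single_ne n01.symm, single_ne n12]; simp)
  have k3 : Pi.single i3 (1 : ℝ) ∈ K := hA _ (single_ne n03.symm) (single_ne n13.symm)
    (single_ne n23.symm) (by rw [single_eq, single_ne n34, single_ne n35]; simp)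
  have k4 : Pi.single i4 (1 : ℝ) ∈ K := hA _ (single_ne n04.symm) (single_ne n14.symm)
    (single_ne n24.symm) (by rw [single_eq, single_ne n34.symm, single_ne n45]; simp)
  have k012 : Pi.single i0 (1 : ℝ) + Pi.single i1 (1 : ℝ) + Pi.single i2 (1 : ℝ) ∈ K := by
    refine hB _ ?_ ?_ ?_ ?_
    · simp only [Pi.add_apply, single_ne n03, single_ne n13, single_ne n23]; norm_num
    · simp only [Pi.add_apply, single_ne n04, single_ne n14, single_ne n24]; norm_num
    · simp only [Pi.add_apply, single_ne n05, single_ne n15, single_ne n25]; norm_num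
    · simp only [Pi.add_apply, single_eq, single_ne n01, single_ne n01.symm, single_ne n02,
        single_ne n02.symm, single_ne n12, single_ne n12.symm]
      norm_num
  have k345 : Pi.single i3 (1 : ℝ) + Pi.single i4 (1 : ℝ) + Pi.single i5 (1 : ℝ) ∈ K := by
    refine hA _ ?_ ?_ ?_ ?_
    · simp only [Pi.add_apply, single_ne n03.symm, single_ne n04.symm, single_ne n05.symm]
      norm_num
    · simp only [Pi.add_apply, single_ne n13.symm, single_ne n14.symm, single_ne n15.symm]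
      norm_num
    · simp only [Pi.add_apply, single_ne n23.symm, single_ne n24.symm, single_ne n25.symm]
      norm_num
    · simp only [Pi.add_apply, single_eq, single_ne n34, single_ne n34.symm, single_ne n35,
        single_ne n35.symm, single_ne n45, single_ne n45.symm]
      norm_num
  have k2 : Pi.single i2 (1 : ℝ) ∈ K := by
    have := K.sub_mem k012 (K.add_mem k0 k1)
    rwa [add_sub_cancel_left] at this
  have k5 : Pi.single i5 (1 : ℝ) ∈ K := by
    have := K.sub_mem k345 (K.add_mem k3 k4)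
    rwa [add_sub_cancel_left] at this
  have kall : ∀ s : Fin (m + 6), Pi.single s (1 : ℝ) ∈ K := by
    intro s
    by_cases s0 : s = i0
    · rw [s0]; exact k0
    by_cases s1 : s = i1
    · rw [s1]; exact k1
    by_cases s2 : s = i2
    · rw [s2]; exact k2
    by_cases s3 : s = i3
    · rw [s3]; exact k3
    by_cases s4 : s = i4
    · rw [s4]; exact k4
    by_cases s5 : s = i5
    · rw [s5]; exact k5
    exact hA _ (single_ne s0) (single_ne s1) (single_ne s2) (by
      rw [single_ne s3, single_ne s4, single_ne s5]; simp)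
  refine MvPolynomial.funext fun b => ?_
  rw [map_zero]
  have hb : b ∈ K := by
    have : b = ∑ s, b s • (Pi.single s (1 : ℝ) : Fin (m + 6) → ℝ) := by
      funext t
      simp [Finset.sum_apply, Pi.single_apply]
    rw [this]
    exact K.sum_mem fun s _ => K.smul_mem _ (kall s)
  exact hb

/-- For `n ≥ 6` and `d ≥ 3` the Artin cone of level one is not convex: it contains two forms
whose sum it does not contain. -/
theorem result (n d : ℕ) (hn : 6 ≤ n) (hd : 3 ≤ d) :
    (∃ p₁ ∈ ArtinCone n d 1, ∃ p₂ ∈ ArtinCone n d 1, p₁ + p₂ ∉ ArtinCone n d 1) ∧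
    ¬ Convex ℝ (ArtinCone n d 1) := by
  obtain ⟨m, rfl⟩ : ∃ m, n = m + 6 := ⟨n - 6, by omega⟩
  obtain ⟨k, rfl⟩ : ∃ k, d = k + 3 := ⟨d - 3, by omega⟩
  have h1 := M3_mem (⟨0, by omega⟩ : Fin (m + 6)) ⟨1, by omega⟩ ⟨2, by omega⟩
    (fun h => by simp at h) k
  have h2 := M3_mem (⟨3, by omega⟩ : Fin (m + 6)) ⟨4, by omega⟩ ⟨5, by omega⟩
    (fun h => by simp at h) k
  have key : ∀ c : ℝ, 0 < c → MvPolynomial.C c *
      (M3 (⟨0, by omega⟩ : Fin (m + 6)) ⟨1, by omega⟩ ⟨2, by omega⟩ k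
      + M3 (⟨3, by omega⟩ : Fin (m + 6)) ⟨4, by omega⟩ ⟨5, by omega⟩ k)
      ∉ ArtinCone (m + 6) (k + 3) 1 := by
    rintro c hc ⟨-, q, hq0, hq, hqs, hPq⟩
    exact hq0 (no_multiplier m k hc q hq hqs hPq)
  refine ⟨⟨_, h1, _, h2, ?_⟩, fun hconv => ?_⟩
  · have := key 1 one_pos
    rwa [MvPolynomial.C_1, one_mul] at this
  · have h3 := hconv h1 h2 (a := 1 / 2) (b := 1 / 2) (by norm_num) (by norm_num) (by norm_num)
    rw [← smul_add, MvPolynomial.smul_eq_C_mul] at h3
    exact key (1 / 2) (by norm_num) h3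

end Pool.Agent.Results.MP_9eb66c_ag.NotConvex
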